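import Mathlib

set_option autoImplicit false
set_option maxHeartbeats 1000000

open Complex Filter Topology Set Metric

namespace Pool.Agent.Helper39.LG

/-- A holomorphic function bounded by `C L` on a disc and by `A` on a small concentric disc is
`≤ η L` on every smaller disc, once `L` is large. -/
lemma two_const {r0 r R A C η : ℝ} (hr0 : 0 < r0) (hr0R : r0 ≤ R) (hr : 0 ≤ r) (hrR : r < R)
    (hA : 0 ≤ A) (hC : 0 ≤ C) (hη : 0 < η) :
    ∃ L0 : ℝ, 0 ≤ L0 ∧ ∀ L : ℝ, L0 ≤ L → ∀ g : ℂ → ℂ, DifferentiableOn ℂ g (ball 0 R) →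
      (∀ w ∈ ball (0 : ℂ) R, ‖g w‖ ≤ C * L) → (∀ w ∈ ball (0 : ℂ) r0, ‖g w‖ ≤ A) →
      ∀ w : ℂ, ‖w‖ ≤ r → ‖g w‖ ≤ η * L := by
  set ρ : ℝ := (r + R) / 2 with hρ
  have hρ1 : r < ρ := by rw [hρ]; linarith
  have hρ2 : ρ < R := by rw [hρ]; linarith
  have hρ0 : 0 < ρ := by linarith
  set ρ0 : ℝ := r0 / 2 with hρ0'
  have hρ01 : 0 < ρ0 := by positivity
  set q : ℝ := r / ρ with hq
  have hq0 : 0 ≤ q := by positivity
  have hq1 : q < 1 := by rw [hq, div_lt_one hρ0]; exact hρ1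
  have hη' : 0 < η / 2 * (1 - q) / (C + 1) := by
    have : 0 < 1 - q := by linarith
    positivity
  obtain ⟨N, hN⟩ := exists_pow_lt_of_lt_one hη' hq1
  have hN' : C * (q ^ N * (1 - q)⁻¹) ≤ η / 2 := by
    rw [lt_div_iff₀ (by positivity)] at hN
    have h1 : 0 < 1 - q := by linarith
    have h2 : 0 ≤ q ^ N := by positivity
    rw [← mul_assoc, ← div_eq_mul_inv, div_le_iff₀ h1]
    nlinarith
  set S : ℝ := ∑ n ∈ Finset.range N, A * (r / ρ0) ^ n with hS
  have hS0 : 0 ≤ S := Finset.sum_nonneg fun n _ => by positivity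
  refine ⟨2 * S / η, by positivity, fun L hL g hg h1 h2 w hw => ?_⟩
  have hL0 : 0 ≤ L := le_trans (by positivity) hL
  have hwR : w ∈ ball (0 : ℂ) R := by rw [mem_ball_zero_iff]; linarith
  have hsum := hasSum_taylorSeries_on_ball hg hwR
  simp only [sub_zero] at hsum
  set T : ℕ → ℂ := fun n => ((n.factorial : ℂ)⁻¹ • w ^ n • iteratedDeriv n g 0) with hT
  have hcoef : ∀ (s K : ℝ), 0 < s → s < R → (∀ z ∈ sphere (0 : ℂ) s, ‖g z‖ ≤ K) →
      ∀ n, ‖T n‖ ≤ K * (r / s) ^ n := by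
    intro s K hs hsR hK n
    have hd : DiffContOnCl ℂ g (ball 0 s) := by
      refine DifferentiableOn.diffContOnCl (hg.mono ?_)
      rw [closure_ball _ hs.ne']
      exact closedBall_subset_ball hsR
    have h := norm_iteratedDeriv_le_of_forall_mem_sphere_norm_le n hs hd hK
    have hK0 : 0 ≤ K := by
      have : ((s : ℂ)) ∈ sphere (0 : ℂ) s := by
        rw [mem_sphere_zero_iff_norm, Complex.norm_real, Real.norm_eq_abs, abs_of_pos hs]
      exact (norm_nonneg _).trans (hK _ this)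
    rw [hT]
    simp only [norm_smul, norm_inv, norm_pow, Complex.norm_natCast]
    have hf : (0 : ℝ) < n.factorial := by exact_mod_cast Nat.factorial_pos n
    calc (n.factorial : ℝ)⁻¹ * (‖w‖ ^ n * ‖iteratedDeriv n g 0‖)
        ≤ (n.factorial : ℝ)⁻¹ * (r ^ n * (n.factorial * K / s ^ n)) := by
          apply mul_le_mul_of_nonneg_left _ (by positivity)
          apply mul_le_mul (pow_le_pow_left₀ (norm_nonneg _) hw n) h (norm_nonneg _) (by positivity)
      _ = K * (r / s) ^ n := by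
          rw [div_pow]; field_simp
  have hbig : ∀ n, ‖T n‖ ≤ C * L * q ^ n := fun n =>
    hcoef ρ (C * L) hρ0 hρ2 (fun z hz => h1 z (by
      rw [mem_sphere_zero_iff_norm] at hz
      rw [mem_ball_zero_iff, hz]; exact hρ2)) n
  have hsmall : ∀ n, ‖T n‖ ≤ A * (r / ρ0) ^ n := fun n =>
    hcoef ρ0 A hρ01 (by linarith) (fun z hz => h2 z (by
      rw [mem_sphere_zero_iff_norm] at hz
      rw [mem_ball_zero_iff, hz]; linarith)) n
  have hsplit : g w = ∑ n ∈ Finset.range N, T n + ∑' n, T (n + N) := by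
    rw [hsum.summable.sum_add_tsum_nat_add N, hsum.tsum_eq]
  have hgeo : HasSum (fun n : ℕ => C * L * q ^ (n + N)) (C * L * (q ^ N * (1 - q)⁻¹)) := by
    have h3 := (hasSum_geometric_of_lt_one hq0 hq1).mul_left (C * L * q ^ N)
    have e : (fun n : ℕ => C * L * q ^ (n + N)) = fun n : ℕ => C * L * q ^ N * q ^ n := by
      funext n
      rw [pow_add]; ring
    rw [e, ← mul_assoc]
    exact h3
  have htail : ‖∑' n, T (n + N)‖ ≤ C * L * (q ^ N * (1 - q)⁻¹) :=
    tsum_of_norm_bounded hgeo fun n => hbig (n + N)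
  have hhead : ‖∑ n ∈ Finset.range N, T n‖ ≤ S :=
    (norm_sum_le _ _).trans (Finset.sum_le_sum fun n _ => hsmall n)
  have hSL : S ≤ η / 2 * L := by
    rw [div_le_iff₀ hη] at hL
    linarith
  rw [hsplit]
  refine (norm_add_le _ _).trans ?_
  have : C * L * (q ^ N * (1 - q)⁻¹) ≤ η / 2 * L := by
    have := mul_le_mul_of_nonneg_right hN' hL0
    linarith
  linarith

end Pool.Agent.Helper39.LG
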